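import Pool.Agent.Y19.TP.Stm2

/-!
# TP-INTW (helper542 for helper19, job 10881): integrality in degree `p ^ k`
-/

set_option autoImplicit false

namespace Pool.Agent.Y542.TP

open Polynomial Function
open Pool.Agent.Y19.TP (IsPCF INTW)

variable {U : Type} [NormedField U] [IsUltrametricDist U]

lemma sub_le_max (x y : U) : ‖x - y‖ ≤ max ‖x‖ ‖y‖ := by
  have h := IsUltrametricDist.norm_add_le_max x (-y)
  rwa [norm_neg, ← sub_eq_add_neg] at h

/-- the norm of an integer prime to `p` -/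
lemma nrm_one (p m : ℕ) (hp : p.Prime) (hn : ‖(p : U)‖ < 1) (hm : ¬ p ∣ m) : ‖(m : U)‖ = 1 := by
  have hcop : Nat.Coprime p m := (Nat.Prime.coprime_iff_not_dvd hp).2 hm
  have hle : ‖(m : U)‖ ≤ 1 := IsUltrametricDist.norm_natCast_le_one U m
  by_contra hne
  have hlt : ‖(m : U)‖ < 1 := lt_of_le_of_ne hle hne
  have hb : (1 : ℤ) = p * Nat.gcdA p m + m * Nat.gcdB p m := by
    have h := Nat.gcd_eq_gcd_ab p m
    rw [Nat.Coprime.gcd_eq_one hcop] at h
    exact_mod_cast h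
  have h1 : (1 : U) = (p : U) * (Nat.gcdA p m : U) + (m : U) * (Nat.gcdB p m : U) := by
    exact_mod_cast congrArg (fun z : ℤ => (z : U)) hb
  have ha : ‖(Nat.gcdA p m : U)‖ ≤ 1 := IsUltrametricDist.norm_intCast_le_one U _
  have hb' : ‖(Nat.gcdB p m : U)‖ ≤ 1 := IsUltrametricDist.norm_intCast_le_one U _
  have h2 := IsUltrametricDist.norm_add_le_max ((p : U) * (Nat.gcdA p m : U)) ((m : U) * (Nat.gcdB p m : U))
  rw [← h1, norm_one, norm_mul, norm_mul] at h2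
  have h3 : ‖(p : U)‖ * ‖(Nat.gcdA p m : U)‖ < 1 := by
    nlinarith [norm_nonneg (p : U), norm_nonneg (Nat.gcdA p m : U)]
  have h4 : ‖(m : U)‖ * ‖(Nat.gcdB p m : U)‖ < 1 := by
    nlinarith [norm_nonneg (m : U), norm_nonneg (Nat.gcdB p m : U)]
  exact absurd (max_lt h3 h4) (not_lt.2 h2)

lemma norm_div (p k m : ℕ) (hp : p.Prime) (hn : ‖(p : U)‖ < 1) (hm : 1 ≤ m) (hmk : m < p ^ k) :
    ‖((p ^ k : ℕ) : U)‖ ≤ ‖(p : U)‖ * ‖(m : U)‖ := by
  obtain ⟨j, m', hm', rfl⟩ := Nat.exists_eq_pow_mul_and_not_dvd (by omega : m ≠ 0) p hp.ne_one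
  have h1 := nrm_one (U := U) p m' hp hn hm'
  have h0 : 0 < m' := by
    rcases Nat.eq_zero_or_pos m' with h | h
    · rw [h, mul_zero] at hm
      omega
    · exact h
  have hjk : j < k := by
    by_contra hcon
    have h2 : p ^ k ≤ p ^ j := Nat.pow_le_pow_right hp.pos (by omega)
    have h3 : p ^ j * 1 ≤ p ^ j * m' := Nat.mul_le_mul_left _ h0
    omega
  push_cast
  rw [norm_mul, h1, mul_one, norm_pow, norm_pow, ← pow_succ']
  exact pow_le_pow_of_le_one (norm_nonneg _) hn.le (by omega)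

/-- the coefficients of a product of linear factors -/
lemma coeff_prod (s : Multiset U) (R : ℝ) (hR : 0 ≤ R) (hs : ∀ c ∈ s, ‖c‖ ≤ R) (j : ℕ) :
    ‖((s.map (fun c => X - C c)).prod).coeff j‖ * R ^ j ≤ R ^ Multiset.card s := by
  induction s using Multiset.induction_on generalizing j with
  | empty =>
    simp only [Multiset.map_zero, Multiset.prod_zero, Multiset.card_zero, pow_zero, coeff_one]
    split_ifs with h
    · rw [h]
      simp
    · simp
  | cons c s ih =>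
    have hs' : ∀ c ∈ s, ‖c‖ ≤ R := fun c hc => hs c (Multiset.mem_cons_of_mem hc)
    have hc := hs c (Multiset.mem_cons_self c s)
    rw [Multiset.map_cons, Multiset.prod_cons, Multiset.card_cons, sub_mul, coeff_sub, coeff_C_mul]
    have h2 : ‖c * ((s.map (fun c => X - C c)).prod).coeff j‖ * R ^ j ≤ R ^ (Multiset.card s + 1) := by
      rw [norm_mul, pow_succ']
      calc ‖c‖ * ‖((s.map (fun c => X - C c)).prod).coeff j‖ * R ^ j
          = ‖c‖ * (‖((s.map (fun c => X - C c)).prod).coeff j‖ * R ^ j) := by ring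
        _ ≤ R * R ^ Multiset.card s := mul_le_mul hc (ih hs' j) (by positivity) hR
    have h1 : ‖(X * (s.map (fun c => X - C c)).prod).coeff j‖ * R ^ j ≤ R ^ (Multiset.card s + 1) := by
      rcases j with _ | j
      · rw [mul_coeff_zero, coeff_X_zero, zero_mul, norm_zero, zero_mul]
        positivity
      · rw [coeff_X_mul, pow_succ, pow_succ, ← mul_assoc]
        exact mul_le_mul_of_nonneg_right (ih hs' j) hR
    have h3 := sub_le_max ((X * (s.map (fun c => X - C c)).prod).coeff j)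
      (c * ((s.map (fun c => X - C c)).prod).coeff j)
    rcases max_cases ‖(X * (s.map (fun c => X - C c)).prod).coeff j‖ ‖c * ((s.map (fun c => X - C c)).prod).coeff j‖ with h4 | h4
    · rw [h4.1] at h3
      exact (mul_le_mul_of_nonneg_right h3 (by positivity)).trans h1
    · rw [h4.1] at h3
      exact (mul_le_mul_of_nonneg_right h3 (by positivity)).trans h2

variable [IsAlgClosed U] [CharZero U]

/-- the coefficients in terms of a bound for the critical points -/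
lemma coeff_le (p k : ℕ) (hp : p.Prime) (hn : ‖(p : U)‖ < 1) (f : U[X]) (hf : f.Monic)
    (hd : f.natDegree = p ^ k) (S : ℝ) (hS : 0 ≤ S) (hc : ∀ c : U, (derivative f).eval c = 0 → ‖c‖ ≤ S)
    (m : ℕ) (hm : m + 1 < p ^ k) : ‖f.coeff (m + 1)‖ * S ^ (m + 1) ≤ ‖(p : U)‖ * S ^ (p ^ k) := by
  have hsp := IsAlgClosed.splits (derivative f)
  have hdeg : (derivative f).natDegree = p ^ k - 1 := by
    rw [natDegree_derivative, hd]
  have hlc : (derivative f).leadingCoeff = ((p ^ k : ℕ) : U) := by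
    rw [leadingCoeff, hdeg, coeff_derivative]
    have h1 : p ^ k - 1 + 1 = p ^ k := Nat.sub_add_cancel (pow_pos hp.pos k)
    have h2 : f.coeff (p ^ k - 1 + 1) = 1 := by
      rw [h1, ← hd]
      exact hf.coeff_natDegree
    rw [h2, one_mul]
    have h3 : ((p ^ k - 1 : ℕ) : U) + 1 = ((p ^ k - 1 + 1 : ℕ) : U) := by push_cast; rfl
    rw [h3, h1]
  have hne : derivative f ≠ 0 := by
    intro h0
    rw [h0, leadingCoeff_zero] at hlc
    have : ((p ^ k : ℕ) : U) ≠ 0 := by exact_mod_cast (pow_pos hp.pos k).ne'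
    exact this hlc.symm
  have hcard : Multiset.card (derivative f).roots = p ^ k - 1 := by
    rw [← hsp.natDegree_eq_card_roots, hdeg]
  have h1 : (derivative f).coeff m = ((p ^ k : ℕ) : U) * (((derivative f).roots.map (fun c => X - C c)).prod).coeff m := by
    conv_lhs => rw [hsp.eq_prod_roots, coeff_C_mul, hlc]
  have h2 := coeff_prod (derivative f).roots S hS (fun c hc' => hc c ((mem_roots hne).1 hc')) m
  rw [hcard] at h2
  rw [coeff_derivative] at h1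
  have h3 : ((m : U) + 1) = ((m + 1 : ℕ) : U) := by push_cast; rfl
  rw [h3] at h1
  have h4 := norm_div (U := U) p k (m + 1) hp hn (by omega) hm
  have hm0 : 0 < ‖((m + 1 : ℕ) : U)‖ := by
    rw [norm_pos_iff]
    exact_mod_cast Nat.succ_ne_zero m
  have h5 : ‖f.coeff (m + 1)‖ * ‖((m + 1 : ℕ) : U)‖ * S ^ m ≤ ‖(p : U)‖ * ‖((m + 1 : ℕ) : U)‖ * S ^ (p ^ k - 1) := by
    rw [← norm_mul, h1, norm_mul, mul_assoc]
    exact mul_le_mul h4 h2 (by positivity) (by positivity)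
  have h6 : ‖f.coeff (m + 1)‖ * S ^ m ≤ ‖(p : U)‖ * S ^ (p ^ k - 1) := by
    have h7 : ‖((m + 1 : ℕ) : U)‖ * (‖f.coeff (m + 1)‖ * S ^ m) ≤ ‖((m + 1 : ℕ) : U)‖ * (‖(p : U)‖ * S ^ (p ^ k - 1)) := by
      linarith
    exact le_of_mul_le_mul_left h7 hm0
  have h8 : S ^ (p ^ k) = S ^ (p ^ k - 1) * S := by
    rw [← pow_succ, Nat.sub_add_cancel (pow_pos hp.pos k)]
  rw [h8, pow_succ, ← mul_assoc, ← mul_assoc]
  exact mul_le_mul_of_nonneg_right h6 hS

/-- the approximation by two terms -/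
lemma approx (p k : ℕ) (hp : p.Prime) (hn : ‖(p : U)‖ < 1) (f : U[X]) (hf : f.Monic)
    (hd : f.natDegree = p ^ k) (S : ℝ) (hS : 0 ≤ S) (hc : ∀ c : U, (derivative f).eval c = 0 → ‖c‖ ≤ S)
    (z : U) (hz : ‖z‖ ≤ S) : ‖f.eval z - (f.coeff 0 + z ^ (p ^ k))‖ ≤ ‖(p : U)‖ * S ^ (p ^ k) := by
  obtain ⟨e, he⟩ : ∃ e, p ^ k = e + 1 := ⟨p ^ k - 1, (Nat.sub_add_cancel (pow_pos hp.pos k)).symm⟩
  have h1 : f.eval z = ∑ i ∈ Finset.range e, f.coeff (i + 1) * z ^ (i + 1) + f.coeff 0 + z ^ (p ^ k) := by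
    rw [eval_eq_sum_range, hd, Finset.sum_range_succ, he, Finset.sum_range_succ']
    have h2 : f.coeff (e + 1) = 1 := by
      rw [← he, ← hd]
      exact hf.coeff_natDegree
    rw [h2]
    simp
  have h2 : f.eval z - (f.coeff 0 + z ^ (p ^ k)) = ∑ i ∈ Finset.range e, f.coeff (i + 1) * z ^ (i + 1) := by
    rw [h1]
    ring
  rw [h2]
  refine IsUltrametricDist.norm_sum_le_of_forall_le_of_nonneg (by positivity) fun i hi => ?_
  rw [Finset.mem_range] at hi
  rw [norm_mul, norm_pow]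
  refine le_trans (mul_le_mul_of_nonneg_left (pow_le_pow_left₀ (norm_nonneg _) hz (i + 1)) (norm_nonneg _)) ?_
  exact coeff_le p k hp hn f hf hd S hS hc i (by omega)

lemma dom {x y : U} {r : ℝ} (h : ‖x - y‖ < r) (hy : ‖y‖ = r) : ‖x‖ = r := by
  have h1 := IsUltrametricDist.norm_add_le_max (x - y) y
  have h2 := sub_le_max x (x - y)
  rw [sub_add_cancel, hy, max_eq_right h.le] at h1
  rw [sub_sub_cancel, hy] at h2
  rcases le_max_iff.1 h2 with h3 | h3
  · exact le_antisymm h1 h3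
  · linarith

theorem t_INTW : INTW := by
  classical
  intro U _ _ _ _ p k hp hk hn f hf hd h10 hpcf
  obtain ⟨d, hdd⟩ : ∃ d, d = p ^ k := ⟨_, rfl⟩
  have hd2 : 2 ≤ d := by
    rw [hdd]
    calc 2 ≤ p ^ 1 := by rw [pow_one]; exact hp.two_le
      _ ≤ p ^ k := Nat.pow_le_pow_right hp.pos hk
  have hpn : 0 ≤ ‖(p : U)‖ := norm_nonneg _
  -- the critical points
  have hne : derivative f ≠ 0 := by
    intro h0
    have h1 := natDegree_derivative f
    rw [h0, natDegree_zero, hd] at h1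
    omega
  have hcrit0 : (derivative f).eval 0 = 0 := by
    rw [← coeff_zero_eq_eval_zero, coeff_derivative]
    simp [h10]
  obtain ⟨c, hc, hmax⟩ : ∃ c : U, (derivative f).eval c = 0 ∧ ∀ c' : U, (derivative f).eval c' = 0 → ‖c'‖ ≤ ‖c‖ := by
    obtain ⟨c, hc, hm⟩ := Finset.exists_max_image (derivative f).roots.toFinset (fun c : U => ‖c‖)
      ⟨0, by rw [Multiset.mem_toFinset, mem_roots hne]; exact hcrit0⟩
    rw [Multiset.mem_toFinset, mem_roots hne] at hc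
    exact ⟨c, hc, fun c' hc' => hm c' (by rw [Multiset.mem_toFinset, mem_roots hne]; exact hc')⟩
  -- the escape lemma
  have hesc : ∀ z : U, 1 < ‖z‖ → ‖c‖ ≤ ‖z‖ → ‖f.coeff 0‖ < ‖z‖ ^ d →
      ‖z‖ < ‖f.eval z‖ ∧ 1 < ‖f.eval z‖ ∧ ‖c‖ ≤ ‖f.eval z‖ ∧ ‖f.coeff 0‖ < ‖f.eval z‖ ^ d := by
    intro z h1 h2 h3
    have h4 := approx p k hp hn f hf hd ‖z‖ (norm_nonneg _) (fun c' hc' => (hmax c' hc').trans h2) z le_rfl
    rw [← hdd] at h4
    have hzd : 0 < ‖z‖ ^ d := by positivity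
    have h5 : ‖f.eval z - z ^ d‖ < ‖z‖ ^ d := by
      have h6 : f.eval z - z ^ d = (f.eval z - (f.coeff 0 + z ^ d)) + f.coeff 0 := by ring
      rw [h6]
      refine lt_of_le_of_lt (IsUltrametricDist.norm_add_le_max _ _) (max_lt (lt_of_le_of_lt h4 ?_) h3)
      calc ‖(p : U)‖ * ‖z‖ ^ d < 1 * ‖z‖ ^ d := mul_lt_mul_of_pos_right hn hzd
        _ = ‖z‖ ^ d := one_mul _
    have h7 : ‖f.eval z‖ = ‖z‖ ^ d := dom h5 (norm_pow z d)
    have h8 : ‖z‖ < ‖z‖ ^ d := by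
      calc ‖z‖ = ‖z‖ ^ 1 := (pow_one _).symm
        _ < ‖z‖ ^ d := pow_lt_pow_right₀ h1 (by omega)
    rw [h7]
    refine ⟨h8, h1.trans h8, h2.trans h8.le, h3.trans_le ?_⟩
    calc ‖z‖ ^ d = (‖z‖ ^ d) ^ 1 := (pow_one _).symm
      _ ≤ (‖z‖ ^ d) ^ d := pow_le_pow_right₀ (h1.trans h8).le (by omega)
  have hinf : ∀ c' : U, (derivative f).eval c' = 0 → ¬ (1 < ‖f.eval c'‖ ∧ ‖c‖ ≤ ‖f.eval c'‖ ∧ ‖f.coeff 0‖ < ‖f.eval c'‖ ^ d) := by
    intro c' hc' h
    obtain ⟨F, hF⟩ : ∃ F : U → U, F = fun w : U => f.eval w := ⟨_, rfl⟩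
    have hFe : ∀ w, F w = f.eval w := fun w => by rw [hF]
    have h1 : ∀ n : ℕ, 1 < ‖F^[n + 1] c'‖ ∧ ‖c‖ ≤ ‖F^[n + 1] c'‖ ∧ ‖f.coeff 0‖ < ‖F^[n + 1] c'‖ ^ d := by
      intro n
      induction n with
      | zero => simpa [hFe] using h
      | succ n ih =>
        rw [iterate_succ_apply' F (n + 1) c', hFe]
        exact (hesc _ ih.1 ih.2.1 ih.2.2).2
    have h2 : StrictMono (fun n : ℕ => ‖F^[n + 1] c'‖) := by
      refine strictMono_nat_of_lt_succ fun n => ?_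
      have h3 := h1 n
      rw [iterate_succ_apply' F (n + 1) c', hFe]
      exact (hesc _ h3.1 h3.2.1 h3.2.2).1
    have h3 := hpcf c' hc'
    rw [← hF] at h3
    have h4 : (Set.range (fun n : ℕ => F^[n + 1] c')).Finite :=
      h3.subset (by rintro _ ⟨n, rfl⟩; exact ⟨n + 1, rfl⟩)
    have h5 : Function.Injective (fun n : ℕ => F^[n + 1] c') := by
      intro a b hab
      exact h2.injective (congrArg norm hab)
    exact Set.infinite_range_of_injective h5 h4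
  have hf0 : f.eval 0 = f.coeff 0 := (coeff_zero_eq_eval_zero f).symm
  -- the constant coefficient
  have hA : ¬ (1 < ‖f.coeff 0‖ ∧ ‖c‖ ^ d ≤ ‖f.coeff 0‖) := by
    rintro ⟨h1, h2⟩
    refine hinf 0 hcrit0 ?_
    rw [hf0]
    refine ⟨h1, ?_, ?_⟩
    · rcases le_or_gt ‖c‖ 1 with h3 | h3
      · exact h3.trans h1.le
      · refine le_trans ?_ h2
        calc ‖c‖ = ‖c‖ ^ 1 := (pow_one _).symm
          _ ≤ ‖c‖ ^ d := pow_le_pow_right₀ h3.le (by omega)
    · calc ‖f.coeff 0‖ = ‖f.coeff 0‖ ^ 1 := (pow_one _).symm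
        _ < ‖f.coeff 0‖ ^ d := pow_lt_pow_right₀ h1 (by omega)
  have hB : ¬ (1 < ‖c‖ ∧ ‖f.coeff 0‖ < ‖c‖ ^ d) := by
    rintro ⟨h1, h2⟩
    have h4 := approx p k hp hn f hf hd ‖c‖ (norm_nonneg _) hmax c le_rfl
    rw [← hdd] at h4
    have hzd : 0 < ‖c‖ ^ d := by positivity
    have h5 : ‖f.eval c - c ^ d‖ < ‖c‖ ^ d := by
      have h6 : f.eval c - c ^ d = (f.eval c - (f.coeff 0 + c ^ d)) + f.coeff 0 := by ring
      rw [h6]
      refine lt_of_le_of_lt (IsUltrametricDist.norm_add_le_max _ _) (max_lt (lt_of_le_of_lt h4 ?_) h2)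
      calc ‖(p : U)‖ * ‖c‖ ^ d < 1 * ‖c‖ ^ d := mul_lt_mul_of_pos_right hn hzd
        _ = ‖c‖ ^ d := one_mul _
    have h7 : ‖f.eval c‖ = ‖c‖ ^ d := dom h5 (norm_pow c d)
    have h8 : ‖c‖ < ‖c‖ ^ d := by
      calc ‖c‖ = ‖c‖ ^ 1 := (pow_one _).symm
        _ < ‖c‖ ^ d := pow_lt_pow_right₀ h1 (by omega)
    refine hinf c hc ?_
    rw [h7]
    refine ⟨h1.trans h8, h8.le, h2.trans_le ?_⟩
    calc ‖c‖ ^ d = (‖c‖ ^ d) ^ 1 := (pow_one _).symm
      _ ≤ (‖c‖ ^ d) ^ d := pow_le_pow_right₀ (h1.trans h8).le (by omega)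
  have hc1 : ‖c‖ ≤ 1 := by
    by_contra hcon
    rw [not_le] at hcon
    rcases lt_or_ge ‖f.coeff 0‖ (‖c‖ ^ d) with h1 | h1
    · exact hB ⟨hcon, h1⟩
    · exact hA ⟨lt_of_lt_of_le (one_lt_pow₀ hcon (by omega)) h1, h1⟩
  have h01 : ‖f.coeff 0‖ ≤ 1 := by
    by_contra hcon
    rw [not_le] at hcon
    exact hA ⟨hcon, (pow_le_one₀ (norm_nonneg _) hc1).trans hcon.le⟩
  intro i
  rcases i with _ | m
  · exact h01
  rcases lt_trichotomy (m + 1) (p ^ k) with h1 | h1 | h1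
  · have h2 := coeff_le p k hp hn f hf hd 1 (by norm_num) (fun c' hc' => (hmax c' hc').trans hc1) m h1
    rw [one_pow, one_pow, mul_one, mul_one] at h2
    exact h2.trans hn.le
  · have h2 : f.coeff (m + 1) = 1 := by
      rw [h1, ← hd]
      exact hf.coeff_natDegree
    rw [h2, norm_one]
  · rw [coeff_eq_zero_of_natDegree_lt (by rw [hd]; exact h1), norm_zero]
    norm_num

end Pool.Agent.Y542.TP
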